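import Pool.Agent.Helper31.BC.Stmts

set_option autoImplicit false

namespace Pool.Agent.Helper31.BC

open Pool.Agent.Helper38.MR (Edge Graph clq mpt Gate Simple out trv)

theorem evd_val {n : ℕ} (l : Ineq n) (x y : Pair n → ℤ) :
    ∑ e, l.a e * ((x e + y e : ℤ) : ℝ) = val l x + val l y := by
  unfold val
  rw [← Finset.sum_add_distrib]
  refine Finset.sum_congr rfl fun e _ => ?_
  push_cast
  ring

theorem st_EVD (hP : ST_PAIR) : ST_EVD := by
  classical
  intro n m A B _ _ _ K f g hK Γ u hu hno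
  obtain ⟨α₀, hα₀⟩ := Finite.exists_max (fun α => val u (f α))
  set θ := val u (f α₀) with hθ
  have hmono : ∀ x y : ℝ, x ≤ y → (if x ≤ θ then (0 : ℝ) else 1) ≤ (if y ≤ θ then (0 : ℝ) else 1) := by
    intro x y hxy
    split_ifs with h1 h2 h3
    · exact le_rfl
    · norm_num
    · exact absurd (hxy.trans h3) h1
    · exact le_rfl
  refine ⟨fun r => if r u ≤ θ then 0 else 1, ?_, ?_, ?_, ?_, ?_⟩
  · intro r
    by_cases h : r u ≤ θ
    · exact Or.inl (if_pos h)
    · exact Or.inr (if_neg h)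
  · intro r r' h
    exact hmono _ _ (h u hu)
  · intro α r h
    exact if_pos ((h u hu).trans (hα₀ α))
  · intro β r h
    refine if_neg ?_
    intro h1
    have h2 := hno _ (hK α₀ β)
    apply h2
    unfold Ineq.Holds
    rw [evd_val]
    have h3 := h u hu
    linarith
  · intro 𝓕 H r hH hΓ
    obtain ⟨H', hc, hp⟩ := hΓ u hu
    refine ⟨_, Ext.step Ext.refl hH hp ?_, Set.mem_insert _ _⟩
    intro p q h1 h2
    rw [(hP m _ _ p q).1] at h2 ⊢
    rcases h1.lt_or_eq with h3 | h3
    · exact Or.inl h3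
    · refine Or.inr ⟨h3, ?_⟩
      have h4 : H' p = H' q := le_antisymm (hc p q h3.le) (hc q p h3.ge)
      rcases h2 with h5 | ⟨_, h5⟩
      · exact absurd h4 h5.ne
      · exact hmono _ _ h5

end Pool.Agent.Helper31.BC
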