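import Pool.Agent.Helper31.BC.Stmts

set_option autoImplicit false

namespace Pool.Agent.Helper31.BC

open Pool.Agent.Helper38.MR (Edge Graph clq mpt Gate Simple out trv)

theorem pair_lt {m : ℕ} (H r : Fn m) (p q : Graph m) (h : H p < H q ∨ (H p = H q ∧ r p < r q)) :
    pair H r p < pair H r q := by
  classical
  unfold pair
  rw [Nat.cast_lt]
  apply Finset.card_lt_card
  rw [Finset.ssubset_iff_of_subset]
  · refine ⟨p, ?_, ?_⟩
    · rw [Finset.mem_filter]
      exact ⟨Finset.mem_univ _, h⟩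
    · rw [Finset.mem_filter]
      rintro ⟨_, h1 | h1⟩
      · exact lt_irrefl _ h1
      · exact lt_irrefl _ h1.2
  · intro x hx
    rw [Finset.mem_filter] at hx ⊢
    refine ⟨Finset.mem_univ _, ?_⟩
    rcases hx.2 with h1 | ⟨h1, h2⟩
    · rcases h with h3 | ⟨h3, _⟩
      · exact Or.inl (h1.trans h3)
      · exact Or.inl (h3 ▸ h1)
    · rcases h with h3 | ⟨h3, h4⟩
      · exact Or.inl (h1 ▸ h3)
      · exact Or.inr ⟨h1.trans h3, h2.trans h4⟩

theorem pair_eq {m : ℕ} (H r : Fn m) (p q : Graph m) (h : H p = H q) (h' : r p = r q) :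
    pair H r p = pair H r q := by
  classical
  unfold pair
  rw [h, h']

theorem st_PAIR : ST_PAIR := by
  intro m H r p q
  have tri : ∀ p q : Graph m, (H p < H q ∨ (H p = H q ∧ r p < r q)) ∨
      (H p = H q ∧ r p = r q) ∨ (H q < H p ∨ (H q = H p ∧ r q < r p)) := by
    intro p q
    rcases lt_trichotomy (H p) (H q) with h | h | h
    · exact Or.inl (Or.inl h)
    · rcases lt_trichotomy (r p) (r q) with h' | h' | h'
      · exact Or.inl (Or.inr ⟨h, h'⟩)
      · exact Or.inr (Or.inl ⟨h, h'⟩)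
      · exact Or.inr (Or.inr (Or.inr ⟨h.symm, h'⟩))
    · exact Or.inr (Or.inr (Or.inl h))
  have key : ∀ p q : Graph m, pair H r p < pair H r q ↔ H p < H q ∨ (H p = H q ∧ r p < r q) := by
    intro p q
    refine ⟨fun h => ?_, pair_lt H r p q⟩
    rcases tri p q with h1 | h1 | h1
    · exact h1
    · exact absurd (pair_eq H r p q h1.1 h1.2) h.ne
    · exact absurd (pair_lt H r q p h1) (not_lt.2 h.le)
  refine ⟨?_, key p q⟩
  rw [← not_lt, key q p]
  constructor
  · intro h
    rcases tri p q with h1 | h1 | h1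
    · rcases h1 with h2 | h2
      · exact Or.inl h2
      · exact Or.inr ⟨h2.1, h2.2.le⟩
    · exact Or.inr ⟨h1.1, h1.2.le⟩
    · exact absurd h1 h
  · rintro (h | ⟨h, h'⟩) (h1 | ⟨h1, h2⟩)
    · exact lt_asymm h h1
    · exact absurd h1.symm h.ne
    · exact absurd h.symm h1.ne
    · exact absurd h2 (not_lt.2 h')

end Pool.Agent.Helper31.BC
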