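import Pool.Agent.Helper31.BC.Stmts

set_option autoImplicit false

namespace Pool.Agent.Helper31.BC

open Pool.Agent.Helper52.Grid

theorem sizf_cl (c : List (ℕ × Bool)) : (clSubs c).length = 2 * c.length + 1 := by
  unfold clSubs
  rw [List.length_cons]
  congr 1
  induction c with
  | nil => rfl
  | cons a c ih =>
    rw [List.flatMap_cons, List.length_append, ih]
    simp
    ring

/-- length of the list of subcolumns -/
def sizf_len (P : PCl) : ℕ := (subs (P.map Prod.fst)).length

theorem sizf_nil : sizf_len [] = 0 := rfl

theorem sizf_append (P Q : PCl) : sizf_len (P ++ Q) = sizf_len P + sizf_len Q := by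
  unfold sizf_len subs
  rw [List.map_append, List.flatMap_append, List.length_append]

theorem sizf_cons (x : List (ℕ × Bool) × ℕ) (P : PCl) :
    sizf_len (x :: P) = 2 * x.1.length + 1 + sizf_len P := by
  unfold sizf_len subs
  rw [List.map_cons, List.flatMap_cons, List.length_append, sizf_cl]

theorem sizf_map {α : Type} (L : List α) (g : α → List (ℕ × Bool) × ℕ) (K : ℕ)
    (h : ∀ x ∈ L, (g x).1.length = K) : sizf_len (L.map g) = L.length * (2 * K + 1) := by
  induction L with
  | nil => simp [sizf_nil]
  | cons a L ih =>
    rw [List.map_cons, sizf_cons, ih fun x hx => h x (List.mem_cons_of_mem _ hx),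
      h a List.mem_cons_self, List.length_cons]
    ring

theorem sizf_flat {α : Type} (L : List α) (F : α → PCl) (K : ℕ)
    (h : ∀ x ∈ L, sizf_len (F x) ≤ K) : sizf_len (L.flatMap F) ≤ L.length * K := by
  induction L with
  | nil => simp [sizf_nil]
  | cons a L ih =>
    rw [List.flatMap_cons, sizf_append, List.length_cons]
    have h1 := ih fun x hx => h x (List.mem_cons_of_mem _ hx)
    have h2 := h a List.mem_cons_self
    calc _ ≤ K + L.length * K := Nat.add_le_add h2 h1
      _ = _ := by ring

theorem sizf_ite (c : Prop) [Decidable c] (x : List (ℕ × Bool) × ℕ) (h : x.1.length ≤ 3) :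
    sizf_len (if c then [x] else []) ≤ 7 := by
  split_ifs
  · rw [sizf_cons, sizf_nil]
    omega
  · rw [sizf_nil]
    omega

theorem st_SIZF : ST_SIZF := by
  intro k q l hk hq hl
  have e : (subs (ccF k q l)).length = sizf_len (pcA k q l (fun _ => false) (fun _ => 0)) +
      sizf_len (pcB (k * q) l (fun _ => 0)) := by
    unfold ccF sizf_len subs
    rw [List.flatMap_append, List.length_append]
  rw [e]
  have hA : sizf_len (pcA k q l (fun _ => false) (fun _ => 0)) ≤
      k * (2 * q + 1) + (k * q) * ((k * q) * 7) ∧
      k * (2 * q + 1) ≤ sizf_len (pcA k q l (fun _ => false) (fun _ => 0)) := by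
    unfold pcA
    rw [sizf_append, sizf_map _ _ q (by intro x _; simp), List.length_range]
    refine ⟨Nat.add_le_add_left ?_ _, Nat.le_add_right _ _⟩
    have h1 := sizf_flat (List.range (k * q)) (fun u => (List.range (k * q)).flatMap fun v =>
      if u < v then
        [([(u, false), (v, false), (vb (k * q) l u v, false)],
          if (fun _ : ℕ => false) u = false then 0
            else if (fun _ : ℕ => false) v = false then 1 else 2)]
      else []) ((k * q) * 7) (by
        intro u _
        have h2 := sizf_flat (List.range (k * q)) (fun v =>
          if u < v then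
            [([(u, false), (v, false), (vb (k * q) l u v, false)],
              if (fun _ : ℕ => false) u = false then 0
                else if (fun _ : ℕ => false) v = false then 1 else 2)]
          else []) 7 (by
            intro v _
            exact sizf_ite _ _ (by simp))
        rw [List.length_range] at h2
        exact h2)
    rw [List.length_range] at h1
    exact h1
  have hB : sizf_len (pcB (k * q) l (fun _ => 0)) ≤
      (k * q) * (2 * l + 1) + (k * q) * ((k * q) * (l * 7)) := by
    unfold pcB
    rw [sizf_append, sizf_map _ _ l (by intro x _; simp), List.length_range]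
    refine Nat.add_le_add_left ?_ _
    have h1 := sizf_flat (List.range (k * q)) (fun u => (List.range (k * q)).flatMap fun v =>
      (List.range l).flatMap fun c =>
      if u < v then
        [([(vr (k * q) l u c, false), (vr (k * q) l v c, false), (vb (k * q) l u v, true)],
          if (fun _ : ℕ => 0) u ≠ c then 0 else if (fun _ : ℕ => 0) v ≠ c then 1 else 2)]
      else []) ((k * q) * (l * 7)) (by
        intro u _
        have h2 := sizf_flat (List.range (k * q)) (fun v => (List.range l).flatMap fun c =>
          if u < v then
            [([(vr (k * q) l u c, false), (vr (k * q) l v c, false), (vb (k * q) l u v, true)],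
              if (fun _ : ℕ => 0) u ≠ c then 0 else if (fun _ : ℕ => 0) v ≠ c then 1 else 2)]
          else []) (l * 7) (by
            intro v _
            have h3 := sizf_flat (List.range l) (fun c =>
              if u < v then
                [([(vr (k * q) l u c, false), (vr (k * q) l v c, false), (vb (k * q) l u v, true)],
                  if (fun _ : ℕ => 0) u ≠ c then 0 else if (fun _ : ℕ => 0) v ≠ c then 1 else 2)]
              else []) 7 (by
                intro c _
                exact sizf_ite _ _ (by simp))
            rw [List.length_range] at h3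
            exact h3)
        rw [List.length_range] at h2
        exact h2)
    rw [List.length_range] at h1
    exact h1
  set m := k * q with hm
  have hkm : k ≤ m := by
    rw [hm]
    exact Nat.le_mul_of_pos_right k hq
  have hm1 : 1 ≤ m := le_trans hk hkm
  constructor
  · have h1 : k * (2 * q + 1) = 2 * m + k := by
      rw [hm]
      ring
    have h2 : m ≤ m ^ 2 * l := by
      calc m = m * 1 * 1 := by ring
        _ ≤ m * m * l := Nat.mul_le_mul (Nat.mul_le_mul_left m hm1) hl
        _ = m ^ 2 * l := by ring
    have h3 : m * l ≤ m ^ 2 * l := by
      have : m ≤ m ^ 2 := by nlinarith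
      exact Nat.mul_le_mul_right l this
    have h4 : m ^ 2 ≤ m ^ 2 * l := Nat.le_mul_of_pos_right _ hl
    have h5 : m * (2 * l + 1) = 2 * (m * l) + m := by ring
    have h6 : m * (m * 7) = 7 * m ^ 2 := by ring
    have h7 : m * (m * (l * 7)) = 7 * (m ^ 2 * l) := by ring
    have h8 : 20 * m ^ 2 * l = 20 * (m ^ 2 * l) := by ring
    rw [h8]
    rw [h1, h6] at hA
    rw [h5, h7] at hB
    omega
  · have h1 : k ≤ k * (2 * q + 1) := Nat.le_mul_of_pos_right k (by omega)
    omega

end Pool.Agent.Helper31.BC
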