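import Pool.Agent.Helper31.BC.Stmts2

set_option autoImplicit false

namespace Pool.Agent.Helper31.BC

open SimpleGraph

section

variable {n : ℕ}

/-- the symmetric matrix of an edge vector -/
def tr_X (x : Pair n → ℤ) (a b : Fin n) : ℤ :=
  if h : a < b then x ⟨(a, b), h⟩ else if h : b < a then x ⟨(b, a), h⟩ else 0

theorem tr_X_lt (x : Pair n → ℤ) {a b : Fin n} (h : a < b) : tr_X x a b = x ⟨(a, b), h⟩ := by
  unfold tr_X
  rw [dif_pos h]

theorem tr_X_symm (x : Pair n → ℤ) (a b : Fin n) : tr_X x a b = tr_X x b a := by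
  unfold tr_X
  rcases lt_trichotomy a b with h | h | h
  · rw [dif_pos h, dif_neg h.not_gt, dif_pos h]
  · rw [h]
  · rw [dif_neg h.not_gt, dif_pos h, dif_pos h]

theorem tr_X_self (x : Pair n → ℤ) (a : Fin n) : tr_X x a a = 0 := by
  unfold tr_X
  rw [dif_neg (lt_irrefl a), dif_neg (lt_irrefl a)]

theorem tr_X_e (x : Pair n → ℤ) (e : Pair n) : x e = tr_X x e.1.1 e.1.2 := (tr_X_lt x e.2).symm

theorem tr_pair {M : Type} [AddCommMonoid M] (F : Fin n → Fin n → M) :
    ∑ e : Pair n, F e.1.1 e.1.2 = ∑ a, ∑ b, if a < b then F a b else 0 := by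
  rw [← Finset.sum_product' Finset.univ Finset.univ (fun a b => if a < b then F a b else 0)]
  rw [Finset.univ_product_univ, ← Finset.sum_filter]
  exact (Finset.sum_subtype (Finset.univ.filter fun q : Fin n × Fin n => q.1 < q.2)
    (p := fun e : Fin n × Fin n => e.1 < e.2) (fun q => by simp) (fun q => F q.1 q.2)).symm

theorem tr_two (F : Fin n → Fin n → ℝ) (hF : ∀ a b, F a b = F b a) (h0 : ∀ a, F a a = 0) :
    ∑ a, ∑ b, F a b = 2 * ∑ e : Pair n, F e.1.1 e.1.2 := by
  rw [tr_pair]
  have h1 : ∀ a b, F a b = (if a < b then F a b else 0) + (if b < a then F b a else 0) := by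
    intro a b
    rcases lt_trichotomy a b with h | h | h
    · rw [if_pos h, if_neg h.not_gt, add_zero]
    · rw [h, if_neg (lt_irrefl b), h0, add_zero]
    · rw [if_neg h.not_gt, if_pos h, zero_add, hF]
  calc ∑ a, ∑ b, F a b
      = ∑ a, ∑ b, ((if a < b then F a b else 0) + (if b < a then F b a else 0)) := by
        refine Finset.sum_congr rfl fun a _ => Finset.sum_congr rfl fun b _ => h1 a b
    _ = (∑ a, ∑ b, if a < b then F a b else 0) + ∑ a, ∑ b, (if b < a then F b a else 0) := by
        rw [← Finset.sum_add_distrib]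
        exact Finset.sum_congr rfl fun a _ => Finset.sum_add_distrib
    _ = (∑ a, ∑ b, if a < b then F a b else 0) + ∑ b, ∑ a, (if b < a then F b a else 0) := by
        rw [Finset.sum_comm (f := fun a b => if b < a then F b a else 0)]
    _ = _ := by ring

theorem tr_deg (x : Pair n → ℤ) (v : Fin n) :
    ∑ e : Pair n, (if e.1.1 = v ∨ e.1.2 = v then x e else 0) = ∑ b, tr_X x v b := by
  have h1 : ∀ e : Pair n, (if e.1.1 = v ∨ e.1.2 = v then x e else 0)
      = if e.1.1 = v ∨ e.1.2 = v then tr_X x e.1.1 e.1.2 else 0 := by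
    intro e
    rw [← tr_X_e]
  rw [Finset.sum_congr rfl fun e _ => h1 e,
    tr_pair (fun a b => if a = v ∨ b = v then tr_X x a b else 0)]
  have h2 : ∀ a b : Fin n, (if a < b then (if a = v ∨ b = v then tr_X x a b else 0) else 0)
      = (if a = v then (if v < b then tr_X x v b else 0) else 0)
        + (if b = v then (if a < v then tr_X x v a else 0) else 0) := by
    intro a b
    by_cases ha : a = v
    · subst ha
      by_cases hb : b = a
      · subst hb
        simp
      · simp [hb]
    · by_cases hb : b = v
      · subst hb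
        simp only [ha, if_true, or_true, if_false, zero_add]
        rw [tr_X_symm x a b]
      · simp [ha, hb]
  have h3 : ∑ a, ∑ b, (if a < b then (if a = v ∨ b = v then tr_X x a b else 0) else 0)
      = (∑ a, ∑ b, (if a = v then (if v < b then tr_X x v b else 0) else 0))
        + ∑ a, ∑ b, (if b = v then (if a < v then tr_X x v a else 0) else 0) := by
    rw [← Finset.sum_add_distrib]
    refine Finset.sum_congr rfl fun a _ => ?_
    rw [← Finset.sum_add_distrib]
    exact Finset.sum_congr rfl fun b _ => h2 a b
  rw [h3, Finset.sum_comm (f := fun a b => if a = v then (if v < b then tr_X x v b else 0) else 0)]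
  simp only [Finset.sum_ite_eq', Finset.mem_univ, if_true]
  rw [← Finset.sum_add_distrib]
  refine Finset.sum_congr rfl fun b _ => ?_
  rcases lt_trichotomy v b with h | h | h
  · rw [if_pos h, if_neg h.not_gt, add_zero]
  · rw [h, if_neg (lt_irrefl b), tr_X_self, add_zero]
  · rw [if_neg h.not_gt, if_pos h, zero_add]

end

theorem st_TR : ST_TR := by
  intro n x hn hx hdeg hcut
  classical
  have hX01 : ∀ a b, tr_X x a b = 0 ∨ tr_X x a b = 1 := by
    intro a b
    have h : ∀ e, x e = 0 ∨ x e = 1 := by
      intro e
      have := hx e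
      omega
    unfold tr_X
    split_ifs
    · exact h _
    · exact h _
    · exact Or.inl rfl
  have hcard : ∀ v : Fin n, (Finset.univ.filter fun b => tr_X x v b = 1).card = 2 := by
    intro v
    have h1 := hdeg v
    rw [tr_deg] at h1
    have h2 : ∑ b, tr_X x v b = ∑ b, (if tr_X x v b = 1 then (1 : ℤ) else 0) := by
      refine Finset.sum_congr rfl fun b _ => ?_
      rcases hX01 v b with h | h
      · rw [h]; rfl
      · rw [h]; rfl
    rw [h2, Finset.sum_boole] at h1
    exact_mod_cast h1
  let Γ : SimpleGraph (Fin n) :=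
    { Adj := fun a b => tr_X x a b = 1
      symm := ⟨fun a b h => by
        show tr_X x b a = 1
        rw [tr_X_symm]
        exact h⟩
      loopless := ⟨fun a h => by
        have h' : tr_X x a a = 1 := h
        rw [tr_X_self] at h'
        exact absurd h' (by norm_num)⟩ }
  have hadj : ∀ a b, Γ.Adj a b ↔ tr_X x a b = 1 := fun a b => Iff.rfl
  have hnc : ∀ a, (Γ.neighborSet a).ncard = 2 := by
    intro a
    have h1 : Γ.neighborSet a = ((Finset.univ.filter fun b => tr_X x a b = 1 : Finset (Fin n)) :
        Set (Fin n)) := by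
      ext b
      rw [SimpleGraph.mem_neighborSet, hadj]
      simp
    rw [h1, Set.ncard_coe_finset]
    exact hcard a
  have hcyc : Γ.IsCycles := fun a _ => hnc a
  have a0 : Fin n := ⟨0, by omega⟩
  have hreach : ∀ b, Γ.Reachable a0 b := by
    by_contra hcon
    push Not at hcon
    obtain ⟨b0, hb0⟩ := hcon
    have h1 := hcut (Finset.univ.filter fun b => Γ.Reachable a0 b)
      ⟨a0, by simp⟩ (by
        intro h
        have h2 : b0 ∈ (Finset.univ.filter fun b => Γ.Reachable a0 b) := by
          rw [h]
          exact Finset.mem_univ _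
        exact hb0 (Finset.mem_filter.1 h2).2)
    have h2 : ∑ e : Pair n, (if (e.1.1 ∈ (Finset.univ.filter fun b => Γ.Reachable a0 b) ↔
        e.1.2 ∈ (Finset.univ.filter fun b => Γ.Reachable a0 b)) then 0 else x e) = 0 := by
      refine Finset.sum_eq_zero fun e _ => ?_
      split_ifs with h
      · rfl
      · by_contra hne
        have hx1 : x e = 1 := by
          have := hx e
          omega
        have hA : Γ.Adj e.1.1 e.1.2 := by
          rw [hadj, ← tr_X_e]
          exact hx1
        apply h
        simp only [Finset.mem_filter, Finset.mem_univ, true_and]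
        exact ⟨fun hr => hr.trans hA.reachable, fun hr => hr.trans hA.symm.reachable⟩
    rw [h2] at h1
    exact absurd h1 (by norm_num)
  obtain ⟨p, hp, hpv⟩ := hcyc.exists_cycle_toSubgraph_verts_eq_connectedComponentSupp
    (v := a0) (c := Γ.connectedComponentMk a0) (by simp)
    (Set.nonempty_of_ncard_ne_zero (by rw [hnc]; norm_num))
  have hall : ∀ b, b ∈ p.support := by
    intro b
    rw [← Walk.mem_verts_toSubgraph, hpv, ConnectedComponent.mem_supp_iff,
      ConnectedComponent.eq]
    exact (hreach b).symm
  have hinj : Function.Injective (fun i : Fin p.length => p.getVert i.1) := by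
    intro i j hij
    exact Fin.ext (hp.getVert_injOn' (by simp only [Set.mem_ofPred_eq]; have := i.2; omega)
      (by simp only [Set.mem_ofPred_eq]; have := j.2; omega) hij)
  have h3 := hp.three_le_length
  have hsurj : Function.Surjective (fun i : Fin p.length => p.getVert i.1) := by
    intro b
    obtain ⟨i, hi, hin⟩ := Walk.mem_support_iff_exists_getVert.mp (hall b)
    rcases Nat.lt_or_ge i p.length with h1 | h1
    · exact ⟨⟨i, h1⟩, hi⟩
    · have h2 : i = p.length := by omega
      refine ⟨⟨0, by omega⟩, ?_⟩
      show p.getVert 0 = b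
      rw [Walk.getVert_zero, ← hi, h2, Walk.getVert_length]
  have hlen : p.length = n := by
    have := Fintype.card_of_bijective ⟨hinj, hsurj⟩
    simpa using this
  have hσ : Function.Bijective (fun i : Fin n => p.getVert i.1) := by
    rw [Fintype.bijective_iff_injective_and_card]
    refine ⟨?_, rfl⟩
    intro i j hij
    exact Fin.ext (hp.getVert_injOn' (by simp only [Set.mem_ofPred_eq]; have := i.2; omega)
      (by simp only [Set.mem_ofPred_eq]; have := j.2; omega) hij)
  set σ : Equiv.Perm (Fin n) := Equiv.ofBijective _ hσ with hσdef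
  have hσi : ∀ i : Fin n, σ i = p.getVert i.1 := fun i => rfl
  have hrot : ∀ i : Fin n, σ (finRotate n i) = p.getVert (i.1 + 1) := by
    intro i
    rw [hσi]
    obtain ⟨m, rfl⟩ : ∃ m, n = m + 1 := ⟨n - 1, by omega⟩
    rw [finRotate_apply, Fin.val_add_one]
    split_ifs with h
    · have h4 : i.1 + 1 = p.length := by rw [h, hlen]; rfl
      rw [h4, Walk.getVert_length, Walk.getVert_zero]
    · rfl
  have hAr : ∀ i : Fin n, Γ.Adj (σ i) (σ (finRotate n i)) := by
    intro i
    rw [hrot, hσi]
    exact p.adj_getVert_succ (by have := i.2; omega)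
  have hne : ∀ i : Fin n, finRotate n i ≠ (finRotate n).symm i := by
    intro i h
    have h1 : finRotate n (finRotate n i) = i := by
      rw [h, Equiv.apply_symm_apply]
    obtain ⟨m, rfl⟩ : ∃ m, n = m + 1 := ⟨n - 1, by omega⟩
    rw [finRotate_apply, finRotate_apply] at h1
    have h2 := congrArg Fin.val h1
    rw [Fin.val_add_one] at h2
    have h3' := i.2
    have h5 : ((i + 1 : Fin (m + 1)) : ℕ) = if i = Fin.last m then 0 else (i : ℕ) + 1 :=
      Fin.val_add_one i
    by_cases h4 : i = Fin.last m
    · rw [if_pos h4] at h5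
      have h6 : i + 1 ≠ Fin.last m := by
        intro h
        rw [h] at h5
        simp only [Fin.val_last] at h5
        omega
      rw [if_neg h6, h5, h4] at h2
      simp only [Fin.val_last] at h2
      omega
    · rw [if_neg h4] at h5
      by_cases h6 : i + 1 = Fin.last m
      · rw [if_pos h6] at h2
        rw [h6] at h5
        simp only [Fin.val_last] at h5
        omega
      · rw [if_neg h6, h5] at h2
        omega
  have hN : ∀ i : Fin n, (Finset.univ.filter fun b => tr_X x (σ i) b = 1)
      = {σ (finRotate n i), σ ((finRotate n).symm i)} := by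
    intro i
    symm
    refine Finset.eq_of_subset_of_card_le ?_ ?_
    · intro b hb
      rw [Finset.mem_insert, Finset.mem_singleton] at hb
      rw [Finset.mem_filter]
      refine ⟨Finset.mem_univ _, ?_⟩
      rcases hb with rfl | rfl
      · exact hAr i
      · have h1 := hAr ((finRotate n).symm i)
        rw [Equiv.apply_symm_apply] at h1
        exact h1.symm
    · rw [hcard, Finset.card_pair]
      intro h
      exact hne i (σ.injective h)
  refine ⟨σ, ?_⟩
  intro w hw
  have e1 : ∑ a, ∑ b, w a b * (tr_X x a b : ℝ) = 2 * ∑ e : Pair n, w e.1.1 e.1.2 * (x e : ℝ) := by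
    rw [tr_two (fun a b => w a b * (tr_X x a b : ℝ)) (fun a b => by
      show w a b * (tr_X x a b : ℝ) = w b a * (tr_X x b a : ℝ)
      rw [hw, tr_X_symm]) (fun a => by
      show w a a * (tr_X x a a : ℝ) = 0
      rw [tr_X_self, Int.cast_zero, mul_zero])]
    congr 1
    refine Finset.sum_congr rfl fun e _ => ?_
    rw [← tr_X_e]
  have e2 : ∀ a, ∑ b, w a b * (tr_X x a b : ℝ)
      = ∑ b ∈ Finset.univ.filter fun b => tr_X x a b = 1, w a b := by
    intro a
    rw [Finset.sum_filter]
    refine Finset.sum_congr rfl fun b _ => ?_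
    rcases hX01 a b with h | h
    · rw [h, if_neg (by norm_num), Int.cast_zero, mul_zero]
    · rw [h, if_pos rfl, Int.cast_one, mul_one]
  have e3 : ∑ a, ∑ b, w a b * (tr_X x a b : ℝ)
      = ∑ i, (w (σ i) (σ (finRotate n i)) + w (σ i) (σ ((finRotate n).symm i))) := by
    rw [← Equiv.sum_comp σ]
    refine Finset.sum_congr rfl fun i _ => ?_
    rw [e2, hN, Finset.sum_pair]
    intro h
    exact hne i (σ.injective h)
  have e4 : ∑ i, w (σ i) (σ ((finRotate n).symm i)) = ∑ i, w (σ i) (σ (finRotate n i)) := by
    rw [← Equiv.sum_comp (finRotate n)]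
    refine Finset.sum_congr rfl fun i _ => ?_
    rw [Equiv.symm_apply_apply, hw]
  rw [Finset.sum_add_distrib, e4] at e3
  linarith

end Pool.Agent.Helper31.BC
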